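import Mathlib
import Pool.Agent.Lib.MP_6f9538_co.Expect

/-!
# Chromatic roots of graphs of maximum degree three: `K_{3,3}` is not extremal
-/

open MP6f9538

/-- For every `r < 3` there is a bipartite graph of maximum degree three with a chromatic root of
modulus larger than `r`; the largest modulus of a chromatic root of `K_{3,3}` is less than `2.9`.
So `K_{Δ,Δ}` does not always have a chromatic root of largest modulus. -/
theorem Pool.Agent.Results.MP_6f9538_co.CubicBipartite.result :
    (¬ ∀ Δ : ℕ, 3 ≤ Δ → ∀ (V : Type) [Fintype V] (G : SimpleGraph V), Admissible Δ G →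
        ∀ z : ℂ, IsChromaticRoot G z → ‖z‖ ≤ rho Δ) ∧
      IsGreatest (moduli 3) (rho 3) ∧ rho 3 < 29 / 10 ∧
      ∀ r : ℝ, r < 3 → ∃ (V : Type) (_ : Fintype V) (G : SimpleGraph V),
        Admissible 3 G ∧ G.IsBipartite ∧ ∃ z : ℂ, IsChromaticRoot G z ∧ r < ‖z‖ := by
  refine ⟨fun h => ?_, isGreatest_rho, rho_lt, fun r hr => exists_admissible hr⟩
  obtain ⟨V, _, G, hG, -, z, hz, hlt⟩ := exists_admissible (r := rho 3)
    (rho_lt.trans (by norm_num))
  exact absurd (h 3 le_rfl V G hG z hz) (not_le.mpr hlt)
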